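import Pool.Agent.Helper60.FF.DefsA

/-! # CNT: a rational function of small degree with values in a coset of powers is constant -/

set_option autoImplicit false

namespace Pool.Agent.Helper60.FF

open Polynomial

theorem cnt_roots {F : Type} [Field F] [Fintype F] [DecidableEq F] (R : Polynomial F) (hR : R ≠ 0) :
    (Finset.univ.filter fun z : F => R.eval z = 0).card ≤ R.natDegree := by
  have h1 : (Finset.univ.filter fun z : F => R.eval z = 0) ⊆ R.roots.toFinset := by
    intro z hz
    rw [Finset.mem_filter] at hz
    rw [Multiset.mem_toFinset, mem_roots hR]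
    exact hz.2
  exact (Finset.card_le_card h1).trans ((Multiset.toFinset_card_le _).trans (card_roots' R))

theorem st_CNT : ST_CNT := by
  classical
  intro F _ _ D hD hdvd hq P Q d c hP hQ hd hPD hQD hdD h
  by_contra hcon
  set q := Fintype.card F with hqd
  set G : Finset F := Finset.univ.filter fun z : F => ¬ ((d * P * Q).eval z = 0) with hG
  have hR : d * P * Q ≠ 0 := mul_ne_zero (mul_ne_zero hd hP) hQ
  have hcard : q ≤ G.card + 3 * D := by
    have h1 := cnt_roots (d * P * Q) hR
    have h2 : (d * P * Q).natDegree ≤ 3 * D := by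
      refine natDegree_mul_le.trans ?_
      have := natDegree_mul_le (p := d) (q := P)
      omega
    have h3 := Finset.card_filter_add_card_filter_not (s := (Finset.univ : Finset F))
      (fun z : F => (d * P * Q).eval z = 0)
    rw [Finset.card_univ, ← hqd] at h3
    rw [hG]
    omega
  have hmem : ∀ z ∈ G, d.eval z ≠ 0 ∧ P.eval z ≠ 0 ∧ Q.eval z ≠ 0 := by
    intro z hz
    rw [hG, Finset.mem_filter] at hz
    have h1 := hz.2
    rw [eval_mul, eval_mul] at h1
    refine ⟨fun h0 => h1 (by rw [h0, zero_mul, zero_mul]), fun h0 => h1 (by rw [h0, mul_zero, zero_mul]),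
      fun h0 => h1 (by rw [h0, mul_zero])⟩
  have hc : c ≠ 0 := by
    have h1 : 0 < G.card := by omega
    obtain ⟨z, hz⟩ := Finset.card_pos.1 h1
    obtain ⟨a1, a2, a3⟩ := hmem z hz
    obtain ⟨s, hs, he⟩ := h z a1 a2 a3
    intro h0
    rw [h0, zero_mul, zero_mul] at he
    exact a2 he
  obtain ⟨m, hm⟩ := hdvd
  have hmpos : 0 < m := by
    rcases Nat.eq_zero_or_pos m with h0 | h0
    · rw [h0, mul_zero] at hm
      omega
    · exact h0
  have hfib : ∀ v ∈ G.image (fun z => P.eval z / (c * Q.eval z)),
      (G.filter fun z => P.eval z / (c * Q.eval z) = v).card ≤ D := by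
    intro v hv
    have hne : P - C (v * c) * Q ≠ 0 := by
      intro h0
      have h1 : P = C (v * c) * Q := sub_eq_zero.1 h0
      apply hcon
      refine ⟨v * c, ?_, h1⟩
      intro h2
      rw [h2, C_0, zero_mul] at h1
      exact hP h1
    have h1 : (G.filter fun z => P.eval z / (c * Q.eval z) = v) ⊆
        (Finset.univ.filter fun z : F => (P - C (v * c) * Q).eval z = 0) := by
      intro z hz
      rw [Finset.mem_filter] at hz
      rw [Finset.mem_filter]
      refine ⟨Finset.mem_univ _, ?_⟩
      obtain ⟨a1, a2, a3⟩ := hmem z hz.1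
      have h3 := hz.2
      rw [div_eq_iff (mul_ne_zero hc a3)] at h3
      rw [eval_sub, eval_mul, eval_C, h3]
      ring
    refine (Finset.card_le_card h1).trans ((cnt_roots _ hne).trans ?_)
    refine (natDegree_sub_le _ _).trans (max_le hPD ?_)
    exact (natDegree_C_mul_le _ _).trans hQD
  have himg : (G.image (fun z => P.eval z / (c * Q.eval z))).card ≤ m := by
    have h1 : G.image (fun z => P.eval z / (c * Q.eval z)) ⊆ (nthRoots m (1 : F)).toFinset := by
      intro v hv
      rw [Finset.mem_image] at hv
      obtain ⟨z, hz, rfl⟩ := hv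
      obtain ⟨a1, a2, a3⟩ := hmem z hz
      obtain ⟨s, hs, he⟩ := h z a1 a2 a3
      rw [Multiset.mem_toFinset, mem_nthRoots hmpos, he]
      have h2 : c * Q.eval z * s ^ (2 * D) / (c * Q.eval z) = s ^ (2 * D) :=
        mul_div_cancel_left₀ _ (mul_ne_zero hc a3)
      rw [h2, ← pow_mul, ← hm]
      exact FiniteField.pow_card_sub_one_eq_one s hs
    exact (Finset.card_le_card h1).trans ((Multiset.toFinset_card_le _).trans (card_nthRoots m 1))
  have hmain := Finset.card_le_mul_card_image G D hfib
  have h2 : D * (G.image (fun z => P.eval z / (c * Q.eval z))).card ≤ D * m :=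
    Nat.mul_le_mul_left D himg
  have h3 : 2 * (D * m) = q - 1 := by rw [hm]; ring
  omega

end Pool.Agent.Helper60.FF
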