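import Pool.Agent.Helper24.FF.Stmts

set_option autoImplicit false

namespace Pool.Agent.Helper24.FF

open Pool.Agent.Helper64.CT Pool.Agent.Helper64.DT Pool.Agent.Helper64.FL

theorem wro_mem_last {V : Type} {X : List V} {a : V} (h : X.getLast? = some a) : a ∈ X :=
  List.mem_of_getLast? h

theorem wro_mem_head {V : Type} {X : List V} {a : V} (h : X.head? = some a) : a ∈ X :=
  List.mem_of_head? h

theorem wro_app {V : Type} (G : SimpleGraph V) (X Y : List V) :
    IPt G (X ++ Y) ↔ IPt G X ∧ IPt G Y ∧ ∀ x ∈ X, ∀ y ∈ Y, x ≠ y ∧
      (G.Adj x y ↔ (X.getLast? = some x ∧ Y.head? = some y)) := by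
  induction X with
  | nil => simp [IPt]
  | cons a X ih =>
    cases X with
    | nil =>
      cases Y with
      | nil => simp [IPt]
      | cons b Y =>
        constructor
        · intro h
          obtain ⟨h1, h2, h3, h4⟩ := h
          refine ⟨by simp [IPt], h4, ?_⟩
          intro x hx y hy
          simp only [List.mem_singleton] at hx
          subst hx
          refine ⟨h1 y hy, ?_⟩
          rcases List.mem_cons.1 hy with e | e
          · subst e
            simp only [List.head?_cons, List.getLast?_singleton, and_self, iff_true]
            exact h2 y (by simp)
          · constructor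
            · intro h5
              exact absurd h5 (h3 y (by simpa using e))
            · intro h5
              exact absurd (by simpa using h5.2) (h4.1 y e)
        · rintro ⟨-, h2, h3⟩
          refine ⟨?_, ?_, ?_, h2⟩
          · intro x hx
            exact (h3 a (by simp) x (by simpa using hx)).1
          · intro x hx
            have hx' : x = b := by simpa using hx.symm
            subst hx'
            exact (h3 a (by simp) x (by simp)).2.2 ⟨by simp, by simp⟩
          · intro x hx h4
            have hx' : x ∈ Y := by simpa using hx
            have h5 := ((h3 a (by simp) x (by simp [hx'])).2.1 h4).2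
            exact absurd (by simpa using h5) (h2.1 x hx')
    | cons c X =>
      constructor
      · intro h
        obtain ⟨h1, h2, h3, h4⟩ := h
        obtain ⟨i1, i2, i3⟩ := ih.1 h4
        have e1 : ∀ x ∈ c :: X, a ≠ x := fun x hx => h1 x (by
          have := List.mem_append_left Y hx
          simpa using this)
        refine ⟨⟨e1, ?_, ?_, i1⟩, i2, ?_⟩
        · intro b hb
          exact h2 b (by simpa using hb)
        · intro x hx
          exact h3 x (by
            have : x ∈ X := by simpa using hx
            simp [this])
        · intro x hx y hy
          rcases List.mem_cons.1 hx with e | e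
          · subst e
            refine ⟨h1 y (by simp [hy]), ?_⟩
            constructor
            · intro h5
              exact absurd h5 (h3 y (by simp [hy]))
            · intro h5
              have h6 : (c :: X).getLast? = some x := by
                have := h5.1
                simpa [List.getLast?_cons_cons] using this
              exact absurd rfl (e1 x (wro_mem_last h6))
          · obtain ⟨j1, j2⟩ := i3 x e y hy
            refine ⟨j1, ?_⟩
            rw [j2]
            simp [List.getLast?_cons_cons]
      · rintro ⟨⟨e1, e2, e3, e4⟩, h2, h3⟩
        have i3 : IPt G ((c :: X) ++ Y) := by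
          refine ih.2 ⟨e4, h2, ?_⟩
          intro x hx y hy
          obtain ⟨j1, j2⟩ := h3 x (List.mem_cons_of_mem a hx) y hy
          refine ⟨j1, ?_⟩
          rw [j2]
          simp [List.getLast?_cons_cons]
        refine ⟨?_, ?_, ?_, i3⟩
        · intro x hx
          have hx' : x ∈ (c :: X) ++ Y := hx
          rcases List.mem_append.1 hx' with e | e
          · exact e1 x e
          · exact (h3 a (by simp) x e).1
        · intro x hx
          exact e2 x (by simpa using hx)
        · intro x hx h4
          have hx' : x ∈ X ++ Y := by simpa using hx
          rcases List.mem_append.1 hx' with e | e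
          · exact e3 x (by simpa using e) h4
          · have h5 := ((h3 a (by simp) x e).2.1 h4).1
            have h6 : (c :: X).getLast? = some a := by
              simpa [List.getLast?_cons_cons] using h5
            exact absurd rfl (e1 a (wro_mem_last h6))

theorem wro_rot {V : Type} (G : SimpleGraph V) (r c : V) (A B : List V)
    (h : Rim G r (A ++ c :: B)) : Rim G c (B ++ r :: A) := by
  obtain ⟨ip, len, rM, adj⟩ := h
  obtain ⟨pA, pcB, cr⟩ := (wro_app G A (c :: B)).1 ip
  obtain ⟨c1, c2, c3, pB⟩ := pcB
  have rA : ∀ x ∈ A, r ≠ x := by
    intro x hx e
    exact rM (by simp [e, hx])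
  have rB : ∀ x ∈ B, r ≠ x := by
    intro x hx e
    exact rM (by simp [e, hx])
  have rc : r ≠ c := by
    intro e
    exact rM (by simp [e])
  have lastM : (A ++ c :: B).getLast? = (c :: B).getLast? := by
    rw [List.getLast?_append]
    cases hB : (c :: B).getLast? with
    | none => simp at hB
    | some w => simp
  have hdA : ∀ x ∈ A, ((A ++ c :: B).head? = some x ↔ A.head? = some x) := by
    intro x hx
    cases A with
    | nil => simp at hx
    | cons a A => simp
  have hdB : ∀ x ∈ B, (A ++ c :: B).head? ≠ some x := by
    intro x hx e
    cases A with
    | nil => exact c1 x hx (by simpa using e)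
    | cons a A =>
      have : a = x := by simpa using e
      exact (cr a (by simp) x (by simp [hx])).1 this
  have lastA : ∀ x ∈ A, (A ++ c :: B).getLast? ≠ some x := by
    intro x hx e
    rw [lastM] at e
    exact (cr x hx x (wro_mem_last e)).1 rfl
  have lastB : ∀ x ∈ B, ((A ++ c :: B).getLast? = some x ↔ B.getLast? = some x) := by
    intro x hx
    rw [lastM]
    cases B with
    | nil => simp at hx
    | cons b B => simp [List.getLast?_cons_cons]
  refine ⟨?_, ?_, ?_, ?_⟩
  · refine (wro_app G B (r :: A)).2 ⟨pB, ⟨rA, ?_, ?_, pA⟩, ?_⟩
    · intro b hb
      have hb' : A.head? = some b := hb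
      have bA : b ∈ A := wro_mem_head hb'
      exact (adj b (by simp [bA])).2 (Or.inl ((hdA b bA).2 hb'))
    · intro x hx h1
      have xA : x ∈ A := List.mem_of_mem_tail hx
      rcases (adj x (by simp [xA])).1 h1 with e | e
      · have e' := (hdA x xA).1 e
        cases A with
        | nil => simp at hx
        | cons a A =>
          have : a = x := by simpa using e'
          exact pA.1 x (by simpa using hx) this
      · exact lastA x xA e
    · intro x hx y hy
      rcases List.mem_cons.1 hy with e | e
      · subst e
        refine ⟨(rB x hx).symm, ?_⟩
        rw [G.adj_comm, adj x (by simp [hx]), lastB x hx]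
        constructor
        · rintro (e | e)
          · exact absurd e (hdB x hx)
          · exact ⟨e, by simp⟩
        · rintro ⟨e, -⟩
          exact Or.inr e
      · have h1 := cr y e x (by simp [hx])
        refine ⟨h1.1.symm, ?_⟩
        rw [G.adj_comm, h1.2]
        constructor
        · rintro ⟨-, h2⟩
          exact absurd (by simpa using h2) (c1 x hx)
        · rintro ⟨-, h2⟩
          exact absurd (by simpa using h2) (rA y e)
  · have e : (B ++ r :: A).length = (A ++ c :: B).length := by
      simp only [List.length_append, List.length_cons]
      omega
    rw [e]
    exact len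
  · intro hc
    rcases List.mem_append.1 hc with e | e
    · exact c1 c e rfl
    · rcases List.mem_cons.1 e with e | e
      · exact rc e.symm
      · exact (cr c e c (by simp)).1 rfl
  · intro x hx
    have lastM' : (B ++ r :: A).getLast? = (r :: A).getLast? := by
      rw [List.getLast?_append]
      cases hB : (r :: A).getLast? with
      | none => simp at hB
      | some w => simp
    rw [lastM']
    rcases List.mem_append.1 hx with e | e
    · have h1 : (B ++ r :: A).head? = B.head? := by
        cases B with
        | nil => simp at e
        | cons b B => simp
      rw [h1]
      constructor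
      · intro h2
        left
        cases B with
        | nil => simp at e
        | cons b B =>
          rcases List.mem_cons.1 e with e | e
          · simp [e]
          · exact absurd h2 (c3 x (by simpa using e))
      · rintro (h2 | h2)
        · exact c2 x h2
        · exfalso
          rcases List.mem_cons.1 (wro_mem_last h2) with h3 | h3
          · exact rB x e h3.symm
          · exact (cr x h3 x (by simp [e])).1 rfl
    · rcases List.mem_cons.1 e with e | e
      · subst e
        rw [G.adj_comm, adj c (by simp), lastM]
        constructor
        · rintro (h2 | h2)
          · cases A with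
            | nil => right; simp
            | cons a A =>
              exfalso
              have : a = c := by simpa using h2
              exact (cr a (by simp) c (by simp)).1 this
          · cases B with
            | nil => left; simp
            | cons b B =>
              exfalso
              have h3 : (b :: B).getLast? = some c := by
                simpa [List.getLast?_cons_cons] using h2
              exact c1 c (wro_mem_last h3) rfl
        · rintro (h2 | h2)
          · cases B with
            | nil => right; simp
            | cons b B =>
              exfalso
              have : b = x := by simpa using h2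
              exact rB b (by simp) this.symm
          · cases A with
            | nil => left; simp
            | cons a A =>
              exfalso
              have h3 : (a :: A).getLast? = some x := by
                simpa [List.getLast?_cons_cons] using h2
              exact rA x (wro_mem_last h3) rfl
      · have h1 : (r :: A).getLast? = A.getLast? := by
          cases A with
          | nil => simp at e
          | cons a A => simp [List.getLast?_cons_cons]
        rw [h1, G.adj_comm, (cr x e c (by simp)).2]
        constructor
        · rintro ⟨h2, -⟩
          exact Or.inr h2
        · rintro (h2 | h2)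
          · exfalso
            cases B with
            | nil =>
              have : r = x := by simpa using h2
              exact rA x e this
            | cons b B =>
              have : b = x := by simpa using h2
              exact (cr x e b (by simp)).1 this.symm
          · exact ⟨h2, by simp⟩

theorem wro_get {V : Type} (G : SimpleGraph V) (M : List V) (h : IPt G M) :
    ∀ i j : ℕ, ∀ x y : V, M[i]? = some x → M[j]? = some y → i < j →
      x ≠ y ∧ (G.Adj x y ↔ j = i + 1) := by
  induction M with
  | nil =>
    intro i j x y h1
    simp at h1
  | cons a M ih =>
    obtain ⟨h1, h2, h3, h4⟩ := h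
    intro i j x y hi hj hij
    obtain ⟨k, rfl⟩ : ∃ k, j = k + 1 := ⟨j - 1, by omega⟩
    have hj' : M[k]? = some y := by simpa using hj
    have yM : y ∈ M := List.mem_of_getElem? hj'
    cases i with
    | zero =>
      have : a = x := by simpa using hi
      subst this
      refine ⟨h1 y yM, ?_⟩
      cases M with
      | nil => simp at yM
      | cons b M =>
        cases k with
        | zero =>
          have : b = y := by simpa using hj'
          subst this
          simp only [zero_add, iff_true]
          exact h2 b (by simp)
        | succ k =>
          have hk : M[k]? = some y := by simpa using hj'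
          constructor
          · intro h5
            exact absurd h5 (h3 y (by simpa using List.mem_of_getElem? hk))
          · intro h5
            omega
    | succ i =>
      have hi' : M[i]? = some x := by simpa using hi
      obtain ⟨j1, j2⟩ := ih h4 i k x y hi' hj' (by omega)
      refine ⟨j1, ?_⟩
      rw [j2]
      omega

theorem wro_adj {V : Type} (G : SimpleGraph V) (M : List V) (h : IPt G M) (i j : ℕ) (x y : V)
    (hi : M[i]? = some x) (hj : M[j]? = some y) (hxy : G.Adj x y) : j = i + 1 ∨ i = j + 1 := by
  rcases lt_trichotomy i j with h1 | h1 | h1
  · exact Or.inl ((wro_get G M h i j x y hi hj h1).2.1 hxy)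
  · subst h1
    rw [hi] at hj
    have : x = y := by simpa using hj
    subst this
    exact absurd hxy (G.loopless.irrefl x)
  · exact Or.inr ((wro_get G M h j i y x hj hi h1).2.1 hxy.symm)

theorem wro_tri {V : Type} (G : SimpleGraph V) (M : List V) (h : IPt G M) (x y z : V)
    (hx : x ∈ M) (hy : y ∈ M) (hz : z ∈ M) (h1 : G.Adj x y) (h2 : G.Adj y z) (h3 : G.Adj x z) :
    False := by
  obtain ⟨i, hi⟩ := List.mem_iff_getElem?.1 hx
  obtain ⟨j, hj⟩ := List.mem_iff_getElem?.1 hy
  obtain ⟨k, hk⟩ := List.mem_iff_getElem?.1 hz
  have a1 := wro_adj G M h i j x y hi hj h1
  have a2 := wro_adj G M h j k y z hj hk h2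
  have a3 := wro_adj G M h i k x z hi hk h3
  omega

theorem wro_end {V : Type} (G : SimpleGraph V) (r : V) (M : List V) (h : Rim G r M) (y z : V)
    (hy : y ∈ M) (hz : z ∈ M) (h1 : G.Adj r y) (h2 : G.Adj y z) (h3 : G.Adj r z) : False := by
  have hl := h.len
  have key : ∀ w ∈ M, G.Adj r w → M[0]? = some w ∨ M[M.length - 1]? = some w := by
    intro w hw e
    rcases (h.adj w hw).1 e with e | e
    · left
      rw [← List.head?_eq_getElem?]
      exact e
    · right
      rw [← List.getLast?_eq_getElem?]
      exact e
  rcases key y hy h1 with e1 | e1 <;> rcases key z hz h3 with e2 | e2
  · have := wro_adj G M h.ip _ _ y z e1 e2 h2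
    omega
  · have := wro_adj G M h.ip _ _ y z e1 e2 h2
    omega
  · have := wro_adj G M h.ip _ _ y z e1 e2 h2
    omega
  · have := wro_adj G M h.ip _ _ y z e1 e2 h2
    omega

theorem st_WRO : ST_WRO := by
  intro V G r
  refine ⟨fun c A B h => wro_rot G r c A B h, ?_⟩
  rintro M h x y z hx hy hz ⟨h1, h2, h3⟩
  rcases List.mem_cons.1 hx with ex | ex
  · subst ex
    rcases List.mem_cons.1 hy with ey | ey
    · subst ey
      exact G.loopless.irrefl _ h1
    · rcases List.mem_cons.1 hz with ez | ez
      · subst ez
        exact G.loopless.irrefl _ h3
      · exact wro_end G x M h y z ey ez h1 h2 h3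
  · rcases List.mem_cons.1 hy with ey | ey
    · subst ey
      rcases List.mem_cons.1 hz with ez | ez
      · subst ez
        exact G.loopless.irrefl _ h2
      · exact wro_end G y M h x z ex ez h1.symm h3 h2
    · rcases List.mem_cons.1 hz with ez | ez
      · subst ez
        exact wro_end G z M h x y ex ey h3.symm h1 h2.symm
      · exact wro_tri G M h.ip x y z ex ey ez h1 h2 h3

end Pool.Agent.Helper24.FF
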